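import Pool.Agent.X39.KO.Main

set_option autoImplicit false

/-!
# Every locally compact abelian group is the kernel `KO(G)` of a locally compact group `G`
-/

universe u

namespace Pool.Agent.Results.MP_607283_al.LocallyCompactAbelianKernels

open Matrix

/-- `KO(G)`: the intersection of the kernels of all continuous homomorphisms from `G` to
`GL_n(ℂ)`, `n ≥ 1`. -/
def KO (G : Type u) [Group G] [TopologicalSpace G] : Subgroup G :=
  ⨅ (n : ℕ) (_ : 1 ≤ n) (ρ : G →* GL (Fin n) ℂ) (_ : Continuous ρ), ρ.ker

lemma mem_KO (G : Type u) [Group G] [TopologicalSpace G] (y : G) :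
    y ∈ KO G ↔ ∀ n : ℕ, 1 ≤ n → ∀ ρ : G →* GL (Fin n) ℂ, Continuous ρ → ρ y = 1 := by
  unfold KO
  simp only [Subgroup.mem_iInf, MonoidHom.mem_ker]

/-- Every Hausdorff locally compact abelian group `A` is isomorphic, as a topological group, to
`KO(G)` for some Hausdorff locally compact group `G`. -/
theorem result (A : Type u) [CommGroup A] [TopologicalSpace A] [IsTopologicalGroup A] [T2Space A]
    [LocallyCompactSpace A] :
    ∃ (G : Type u) (_ : Group G) (_ : TopologicalSpace G), IsTopologicalGroup G ∧ T2Space G ∧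
      LocallyCompactSpace G ∧ Nonempty (KO G ≃ₜ* A) := by
  have hlc : LocallyCompactSpace (Additive A) := inferInstanceAs (LocallyCompactSpace A)
  have ht2 : T2Space (Additive A) := inferInstanceAs (T2Space A)
  have h1 : IsTopologicalGroup (Pool.Agent.X39.KO.HG (Additive A)) := inferInstance
  have h2 : T2Space (Pool.Agent.X39.KO.HG (Additive A)) := inferInstance
  have h3 : LocallyCompactSpace (Pool.Agent.X39.KO.HG (Additive A)) := inferInstance
  exact ⟨Pool.Agent.X39.KO.HG (Additive A), inferInstance, inferInstance, h1, h2, h3,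
    ⟨Pool.Agent.X39.KO.iso (KO (Pool.Agent.X39.KO.HG (Additive A))) (fun y => mem_KO _ y)⟩⟩

end Pool.Agent.Results.MP_607283_al.LocallyCompactAbelianKernels
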